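import Pool.Agent.MP_db5b97_nt.H31.SpecG

/-! Passing to a primitive section of at most half the degree. -/

namespace Pool.Agent.MP_db5b97_nt.H51

open MulAction Pool.Agent.MP_db5b97_nt.H31

theorem pd_order {G X : Type} [Group G] [MulAction G X] {p : ℕ} (hp : p.Prime) (h : PD p G X) :
    ∃ g : G, orderOf (toPermHom G X g) = p := by
  obtain ⟨g, ⟨x, hx⟩, hg⟩ := h
  have := Fact.mk hp
  refine ⟨g, orderOf_eq_prime ?_ fun e => hx ?_⟩
  · rw [← map_pow]
    exact Equiv.ext hg
  · exact congrArg (fun σ : Equiv.Perm X => σ x) e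

theorem pd_card {G X : Type} [Group G] [MulAction G X] [Finite X] {p : ℕ} (hp : p.Prime)
    (h : PD p G X) : p ≤ Nat.card X := by
  obtain ⟨g, hg⟩ := pd_order hp h
  rw [← hp.dvd_factorial, ← Nat.card_perm, ← hg]
  exact orderOf_dvd_natCard _

theorem pd_sub {G X : Type} [Group G] [Finite G] [MulAction G X] {p : ℕ} (hp : p.Prime)
    (h : PD p G X) (S : Subgroup G) (hS : ¬ p ∣ S.index) : PD p S X := by
  obtain ⟨g, hg⟩ := pd_order hp h
  have := Fact.mk hp
  have hsur := (toPermHom G X).rangeRestrict_surjective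
  have : Finite (toPermHom G X).range := Finite.of_surjective _ hsur
  have h1 : p ∣ Nat.card (toPermHom G X).range := by
    rw [← hg]
    exact Subgroup.orderOf_dvd_natCard _ ⟨g, rfl⟩
  rw [← (S.map (toPermHom G X).rangeRestrict).card_mul_index, hp.dvd_mul] at h1
  obtain ⟨⟨_, s, hs, rfl⟩, hu⟩ := exists_prime_orderOf_dvd_card' p
    (h1.resolve_right fun h2 => hS (h2.trans (S.index_map_dvd hsur)))
  rw [← Subgroup.orderOf_coe, ← Subgroup.orderOf_coe] at hu
  change orderOf (toPermHom G X s) = p at hu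
  refine ⟨⟨s, hs⟩, ?_, fun x => ?_⟩
  · by_contra hc
    push Not at hc
    have e : toPermHom G X s = 1 := Equiv.ext hc
    rw [e, orderOf_one] at hu
    exact hp.one_lt.ne hu
  · have e := pow_orderOf_eq_one (toPermHom G X s)
    rw [hu, ← map_pow] at e
    exact congrArg (fun σ : Equiv.Perm X => σ x) e

theorem card_filter {y n : ℕ} (hn : 0 < n) (h : n < y ^ 2) (T : Finset ℕ)
    (hT : ∀ p ∈ T, p.Prime ∧ y ≤ p) : T.card ≤ (T.filter fun p => ¬ p ∣ n).card + 1 := by
  rw [← Finset.card_filter_add_card_filter_not (s := T) fun p => p ∣ n, add_comm]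
  refine Nat.add_le_add_left (Finset.card_le_one.2 fun p hp q hq => ?_) _
  rw [Finset.mem_filter] at hp hq
  by_contra hne
  have h1 := Nat.le_of_dvd hn (((Nat.coprime_primes (hT p hp.1).1 (hT q hq.1).1).2
    hne).mul_dvd_of_dvd_of_dvd hp.2 hq.2)
  have h2 := Nat.mul_le_mul (hT p hp.1).2 (hT q hq.1).2
  nlinarith

theorem nofix {G X : Type} [Group G] [MulAction G X] (hp : IsPreprimitive G X) {x z : X}
    (hz : z ≠ x) (hfix : ∀ g : G, g • x = x → g • z = z) (g : G) (hg : g • x = x) (w : X) :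
    g • w = w := by
  have : Nontrivial X := ⟨⟨z, x, hz⟩⟩
  have hS := (isCoatom_stabilizer_iff_preprimitive G x).2 hp
  have h1 : stabilizer G z = stabilizer G x :=
    (hS.le_iff.1 (show _ ≤ stabilizer G z from hfix)).resolve_left
      ((isCoatom_stabilizer_iff_preprimitive G z).2 hp).1
  obtain ⟨k, rfl⟩ := exists_smul_eq G x z
  have h2 : k ∈ Subgroup.normalizer (stabilizer G x : Set G) := by
    rw [Subgroup.mem_normalizer_iff]
    intro h
    rw [← h1, mem_stabilizer_iff, mem_stabilizer_iff, ← mem_stabilizer_iff, h1,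
      mem_stabilizer_iff, mul_smul, mul_smul, inv_smul_smul, smul_left_cancel_iff]
  have h3 : Subgroup.normalizer (stabilizer G x : Set G) = ⊤ :=
    (hS.le_iff.1 Subgroup.le_normalizer).resolve_right fun e => hz (by rwa [e] at h2)
  obtain ⟨c, rfl⟩ := exists_smul_eq G x w
  have h4 : c⁻¹ ∈ Subgroup.normalizer (stabilizer G x : Set G) := h3 ▸ Subgroup.mem_top _
  have h5 := (Subgroup.mem_normalizer_iff.1 h4 g).1 hg
  rwa [mem_stabilizer_iff, inv_inv, mul_smul, mul_smul, inv_smul_eq_iff] at h5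

theorem small_orbit {G X : Type} [Group G] [MulAction G X] [Finite X] [IsPretransitive G X]
    (h : ¬ IsMultiplyPretransitive G X 2) (x : X) :
    ∃ z : X, z ≠ x ∧ 2 * Nat.card (orbit (stabilizer G x) z) ≤ Nat.card X := by
  rw [SubMulAction.ofStabilizer.isMultiplyPretransitive (a := x), is_one_pretransitive_iff,
    isPretransitive_iff] at h
  push Not at h
  obtain ⟨a, b, hab⟩ := h
  have hd : Disjoint (orbit (stabilizer G x) (a : X)) (orbit (stabilizer G x) (b : X)) := by
    rw [Set.disjoint_left]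
    rintro _ ⟨g, rfl⟩ ⟨k, hk⟩
    refine hab (k⁻¹ * g) (Subtype.ext ?_)
    show (k⁻¹ * g) • (a : X) = b
    rw [mul_smul, inv_smul_eq_iff]
    exact hk.symm
  have h1 := Set.ncard_union_eq hd
  have h2 := Set.ncard_le_card (orbit (stabilizer G x) (a : X) ∪ orbit (stabilizer G x) (b : X))
  rw [h1, ← Nat.card_coe_set_eq, ← Nat.card_coe_set_eq] at h2
  rcases le_total (Nat.card (orbit (stabilizer G x) (a : X)))
    (Nat.card (orbit (stabilizer G x) (b : X))) with h3 | h3
  · exact ⟨a, a.2, by omega⟩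
  · exact ⟨b, b.2, by omega⟩

theorem rowSTEP (wie : RowWIE) (lay : RowLAY) : RowSTEP := by
  intro y t
  induction t with
  | zero =>
    intro J X _ _ _ _ _ _ htr hm
    exact absurd (is_one_pretransitive_iff.2 htr) hm
  | succ t ih =>
    intro J X _ _ _ _ hy hX htr hm T hT
    rcases T.eq_empty_or_nonempty with rfl | ⟨p0, hp0⟩
    · exact Or.inl (Nat.zero_le _)
    have hyX : y ≤ Nat.card X := (hT p0 hp0).2.1.trans (pd_card (hT p0 hp0).1 (hT p0 hp0).2.2)
    obtain ⟨_, ⟨x, _⟩, _⟩ := (hT p0 hp0).2.2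
    have hc := card_filter (by omega) hX T fun p hp => ⟨(hT p hp).1, (hT p hp).2.1⟩
    have hsub : (T.filter fun p => ¬ p ∣ Nat.card X) ⊆ T := Finset.filter_subset _ _
    have hS : ∀ p ∈ T.filter fun p => ¬ p ∣ Nat.card X, PD p (stabilizer J x) X := fun p hp =>
      pd_sub (hT p (hsub hp)).1 (hT p (hsub hp)).2.2 _ (by
        rw [index_stabilizer_of_transitive]
        exact (Finset.mem_filter.1 hp).2)
    generalize (T.filter fun p => ¬ p ∣ Nat.card X) = T1 at hc hsub hS
    by_cases h2 : IsMultiplyPretransitive J X 2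
    · rw [SubMulAction.ofStabilizer.isMultiplyPretransitive (a := x),
        is_one_pretransitive_iff] at h2
      rw [SubMulAction.ofStabilizer.isMultiplyPretransitive (a := x)] at hm
      have hk := SubMulAction.nat_card_ofStabilizer_add_one_eq J x
      rcases ih (stabilizer J x) (SubMulAction.ofStabilizer J x) hy (by omega) h2 hm T1
        (fun p hp => ⟨(hT p (hsub hp)).1, (hT p (hsub hp)).2.1, by
          obtain ⟨g, ⟨z, hz⟩, hg⟩ := hS p hp
          exact ⟨g, ⟨⟨z, fun e => hz (e ▸ g.2)⟩, fun e => hz (congrArg Subtype.val e)⟩,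
            fun w => Subtype.ext (hg w)⟩⟩) with h | ⟨H, Y, _, _, _, _, φ, h3, h4, h5, T', h6, h7, h8⟩
      · exact Or.inl (by omega)
      · exact Or.inr ⟨H, Y, _, ‹_›, _, ‹_›, (stabilizer J x).subtype.comp φ, h3,
          fun h hh => h4 h fun w => Subtype.ext (hh w), by omega, T', h6.trans hsub, by omega, h8⟩
    by_cases hpr : IsPreprimitive J X
    · rcases T1.eq_empty_or_nonempty with rfl | ⟨p1, hp1⟩
      · exact Or.inl (by simp at hc; omega)
      obtain ⟨z, hz, hcz⟩ := small_orbit h2 x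
      have hmv : ∃ g : J, g • x = x ∧ g • z ≠ z := by
        by_contra hn
        push Not at hn
        obtain ⟨g, ⟨w, hw⟩, _⟩ := hS p1 hp1
        exact hw (nofix hpr hz hn g g.2 w)
      have hO : ∀ p ∈ T1, PD p (stabilizer J x) (orbit (stabilizer J x) z) := fun p hp =>
        wie J X p x z (hT p (hsub hp)).1 hpr hmv (hS p hp)
      have hyO := (hT p1 (hsub hp1)).2.1.trans (pd_card (hT p1 (hsub hp1)).1 (hO p1 hp1))
      obtain ⟨Y, W, _, _, _, β, ω, s, m, t', w, hl, _, _, _, h3, _, h4, h5⟩ :=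
        lay (stabilizer J x) (orbit (stabilizer J x) z) y inferInstance hy hyO (by omega)
      refine Or.inr ⟨stabilizer (stabilizer J x) w, fib ω w, _, inferInstance, _, inferInstance,
        (stabilizer J x).subtype.comp (stabilizer (stabilizer J x) w).subtype, h3,
        fun h hh => h4 h fun w => Subtype.ext (hh w), ?_, T1, hsub, by omega,
        fun p hp => h5 p (hT p (hsub hp)).1 (hT p (hsub hp)).2.1 (hO p hp)⟩
      have h6 : Nat.card (fib ω w) = m := hl.cm w
      have h7 := Nat.le_of_dvd (n := Nat.card (orbit (stabilizer J x) z)) (by omega)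
        (show m ∣ _ from ⟨t' * s, by rw [hl.cx]; ring⟩)
      omega
    · obtain ⟨Y, W, _, _, _, β, ω, s, m, t', w, hl, _, _, _, h3, h9, h4, h5⟩ :=
        lay J X y htr hy hyX hX
      refine Or.inr ⟨stabilizer J w, fib ω w, _, inferInstance, _, inferInstance,
        (stabilizer J w).subtype, h3, h4, ?_, T, le_rfl, by omega,
        fun p hp => h5 p (hT p hp).1 (hT p hp).2.1 (hT p hp).2.2⟩
      have h6 : Nat.card (fib ω w) = m := hl.cm w
      have h7 : Nat.card X = t' * s * m := by rw [hl.cx]; ring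
      have h8 : t' * s ≠ 0 := fun e => by rw [e, zero_mul] at h7; omega
      have h10 : t' * s ≠ 1 := fun e =>
        hpr (h9 (Nat.eq_one_of_mul_eq_one_left e) (Nat.eq_one_of_mul_eq_one_right e))
      rw [h6, h7]
      exact Nat.mul_le_mul_right _ (by omega)

end Pool.Agent.MP_db5b97_nt.H51
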